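import Pool.Agent.Q80.HK.H

/-!
# The Mittag-Leffler function has zeros on the imaginary axis (MP_ff8adc_an, Q1: disproved)
-/

set_option autoImplicit false

open Complex

namespace Pool.Agent.Results.MP_ff8adc_an.ZeroExists

/-- The Mittag-Leffler function `E_{α,1}(z) = ∑ z ^ k / Γ(α k + 1)`. -/
noncomputable def mittagLeffler (α : ℝ) (z : ℂ) : ℂ :=
  ∑' k : ℕ, z ^ k / Complex.Gamma (α * k + 1)

/-- The series converges for every `z` if `α > 0`. -/
theorem summable_mittagLeffler {α : ℝ} (hα : 0 < α) (z : ℂ) :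
    Summable fun k : ℕ => z ^ k / Complex.Gamma (α * k + 1) := by
  refine (Pool.Agent.Q80.HK.ML_summable hα one_pos z).congr fun k => ?_
  rw [← Complex.Gamma_ofReal]
  push_cast
  rfl

/-- There are `α ∈ (3/5, 1)` and a real `t` with `E_{α,1}(i t) = 0`; more precisely there are such
`α` in `[3/4, 999/1000]` and `t ≥ 64`. -/
theorem result : ∃ α t : ℝ, 3 / 5 < α ∧ α < 1 ∧ 3 / 4 ≤ α ∧ α ≤ 999 / 1000 ∧ 64 ≤ t ∧
    mittagLeffler α (I * t) = 0 := by
  obtain ⟨α, t, h1, h2, h3, h4⟩ := Pool.Agent.Q80.HK.exists_zero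
  refine ⟨α, t, by linarith, by linarith, h1, h2, h3, ?_⟩
  rw [← h4]
  unfold mittagLeffler Pool.Agent.Q80.HK.ML
  congr 1
  funext k
  rw [← Complex.Gamma_ofReal, mul_comm I (t : ℂ)]
  push_cast
  rfl

end Pool.Agent.Results.MP_ff8adc_an.ZeroExists
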